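import Mathlib
import Pool.Agent.Lib.helper31.Kor

open Set

namespace Pool.Agent.Results.MP_eab5ac_an.Counterexample

/-- `u` is a positive classical solution of
`u'' + (n-1)/r u' + lam f(r,u) = 0` on `(0,1)`, `u'(0) = u(1) = 0`, `u > 0` on `[0,1)`. -/
def IsPosSol (n lam : ℝ) (f : ℝ × ℝ → ℝ) (u : ℝ → ℝ) : Prop :=
  ContDiffOn ℝ 2 u (Icc 0 1) ∧
  (∀ r ∈ Ioo (0 : ℝ) 1,
    deriv (deriv u) r + (n - 1) / r * deriv u r + lam * f (r, u r) = 0) ∧
  derivWithin u (Icc 0 1) 0 = 0 ∧ u 1 = 0 ∧ ∀ r ∈ Ico (0 : ℝ) 1, 0 < u r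

open Pool.Agent.Lib.helper31.Kor

lemma W_lo {S r : ℝ} (hS : 0 < S) (h0 : 0 ≤ r) (h1 : r < 1) : 1 / (1 + S) < W S r := by
  unfold W
  apply one_div_lt_one_div_of_lt (by positivity)
  nlinarith [mul_pos hS (show 0 < 1 - r ^ 2 by nlinarith)]

lemma W_hi {S : ℝ} (hS : 0 < S) (r : ℝ) : W S r ≤ 1 := by
  unfold W
  rw [div_le_one (by positivity)]
  nlinarith [mul_nonneg hS.le (sq_nonneg r)]

lemma sol1 : IsPosSol 6 19 F (fun r => id (W 19 r) - 1/20) := by
  obtain ⟨a, b⟩ := ode (S := 19) (c := 1/20) (by norm_num) id (fun _ => 1) (fun _ => 0)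
    (fun w => hasDerivAt_id w) (fun w => hasDerivAt_const w 1)
  refine ⟨((W_smooth (by norm_num)).sub contDiff_const).contDiffOn, fun r hr => ?_, ?_, ?_,
    fun r hr => ?_⟩
  · rw [b r hr.1.ne']
    have hp : (1 + 19 * r^2 : ℝ) ≠ 0 := by positivity
    have k : W 19 r * (1 + 19 * r^2) = 1 := by unfold W; field_simp
    simp only [F, id, sub_add_cancel, k]
    ring
  · rw [(a 0).hasDerivWithinAt.derivWithin (uniqueDiffOn_Icc (by norm_num) 0 (by norm_num))]
    simp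
  · simp only [W, id]; norm_num
  · have := W_lo (S := 19) (by norm_num) hr.1 hr.2
    simp only [id]; linarith

lemma sol2 : IsPosSol 6 20 F (fun r => h (W 20 r) - 1/20) := by
  obtain ⟨a, b⟩ := ode (S := 20) (c := 1/20) (by norm_num) h h1 h2 hd h1d
  refine ⟨((h_smooth.comp (W_smooth (by norm_num))).sub contDiff_const).contDiffOn,
    fun r hr => ?_, ?_, ?_, fun r hr => ?_⟩
  · rw [b r hr.1.ne']
    have hp : (1 + 20 * r^2 : ℝ) ≠ 0 := by positivity
    have k : W 20 r * (1 + 20 * r^2) = 1 := by unfold W; field_simp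
    have lo := W_lo (S := 20) (by norm_num) hr.1.le hr.2
    have hi := W_hi (S := 20) (by norm_num) r
    simp only [F, sub_add_cancel, om_h]
    rw [Z_eq hi]
    generalize W 20 r = w at *
    have hN := (Nt_pos (w := w) (by linarith) (by linarith)).ne'
    have e1 := idR w
    have e2 := idN w
    have e3 : w * (1 - h w * (1 + 19 * r^2)) = (1-w)*(w-1/21)*Nt w := by
      linear_combination e2 - (19/20) * h w * k
    have e4 : w * Rt w / Nt w * (1 - h w * (1 + 19 * r^2)) = (1-w)*(w-1/21)*Rt w := by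
      rw [div_mul_eq_mul_div, div_eq_iff hN]
      linear_combination Rt w * e3
    rw [e4]
    linear_combination (-20) * e1
  · rw [(a 0).hasDerivWithinAt.derivWithin (uniqueDiffOn_Icc (by norm_num) 0 (by norm_num))]
    simp
  · have : W 20 1 = 1/21 := by unfold W; norm_num
    simp only [this, h_w0]; norm_num
  · have := W_lo (S := 20) (by norm_num) hr.1 hr.2
    have := h_strictMono (show (1/21:ℝ) < W 20 r by linarith)
    rw [h_w0] at this
    simp only; linarith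

theorem result :
    ∃ f : ℝ × ℝ → ℝ, ContDiffOn ℝ 1 f (Icc 0 1 ×ˢ Ici 0) ∧
      (∀ r ∈ Icc (0 : ℝ) 1, ∀ u : ℝ, 0 ≤ u →
        derivWithin (fun s => f (s, u)) (Icc 0 1) r ≤ 0) ∧
      ∃ (lam₁ lam₂ : ℝ) (u₁ u₂ : ℝ → ℝ), 0 < lam₁ ∧ 0 < lam₂ ∧
        IsPosSol 6 lam₁ f u₁ ∧ IsPosSol 6 lam₂ f u₂ ∧ u₁ 0 = u₂ 0 ∧ lam₁ ≠ lam₂ := by
  refine ⟨F, fun p hp => (F_smooth hp.2).contDiffWithinAt, fun r hr u hu => ?_,
    19, 20, _, _, by norm_num, by norm_num, sol1, sol2, ?_, by norm_num⟩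
  · rw [(F_r r u).hasDerivWithinAt.derivWithin (uniqueDiffOn_Icc (by norm_num) r hr)]
    have := Z_nonneg (om_ge (v := u + 1/20) (by linarith))
    have := hr.1
    have : 0 ≤ Z (om (u + 1/20)) * ((u + 1/20) * (38 * r)) := by positivity
    linarith
  · have e1 : W 19 0 = 1 := by unfold W; norm_num
    have e2 : W 20 0 = 1 := by unfold W; norm_num
    simp only [e1, e2, h_one, id]

end Pool.Agent.Results.MP_eab5ac_an.Counterexample
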